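import Mathlib
import Pool.Agent.Q103.EL.Line

set_option autoImplicit false

/-!
# When the electrification of a graph product of finite groups is a quasi-line

Let `Γ` be a finite graph and let `H v` be nontrivial finite groups.  The electrification
`elec Γ H` is the Cayley graph of the graph product `GProd Γ H` for the generating set which
consists of the vertex groups and of the subgroups generated by the minsquare subgraphs.

Theorem: `elec Γ H` is a quasi-line if and only if the graph product is infinite and virtually
cyclic, if and only if there are exactly two nonadjacent vertices and their groups have order two.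

Idea of the proof.  Let `U` be the set of the vertices which are not adjacent to all others.  If the
complement graph is not connected on `U` then `U` is a minsquare subgraph, so the electrification is
bounded.  Otherwise no minsquare subgraph contains `U` (or again the electrification is bounded), and
a closed walk in the complement graph which visits all of `U` gives a periodic infinite word none of
whose letters can be interchanged.  Every generator of the electrification crosses less than one
period of the walls of this word, so the word is a quasi-geodesic ray.  If there are two nontrivial
elements in the groups of the vertices not adjacent to the first letter then three translates of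
this ray diverge, which is not possible in a quasi-line.
-/

namespace Pool.Agent.Results.MP_7fb950_al.QuasiLineIff

open Pool.Agent.Y33.GP Pool.Agent.Q103.EL

theorem result {V : Type} [Finite V] (Γ : SimpleGraph V) (H : V → Type) [∀ v, Group (H v)]
    [∀ v, Finite (H v)] [∀ v, Nontrivial (H v)] :
    (QuasiLine (elec Γ H) ↔ Infinite (GProd Γ H) ∧ VirtuallyCyclic (GProd Γ H)) ∧
    (QuasiLine (elec Γ H) ↔ ∃ u v : V, u ≠ v ∧ ¬ Γ.Adj u v ∧
      Nat.card (H u) = 2 ∧ Nat.card (H v) = 2 ∧
      ∀ x y : V, x ≠ y → ¬ Γ.Adj x y → (x = u ∧ y = v) ∨ (x = v ∧ y = u)) := by
  constructor
  · constructor
    · intro h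
      obtain ⟨D⟩ := lineData_of_quasiLine h
      exact ⟨D.infinite, D.vc⟩
    · rintro ⟨h1, h2⟩
      obtain ⟨D⟩ := lineData_of_vc h1 h2
      exact D.quasiLine
  · constructor
    · intro h
      obtain ⟨D⟩ := lineData_of_quasiLine h
      exact ⟨D.u, D.v, D.adj.ne, ((SimpleGraph.compl_adj Γ _ _).mp D.adj).2, D.cu, D.cv,
        fun x y h1 h2 => D.uniq x y (compl_adj h1 h2)⟩
    · rintro ⟨u, v, h1, h2, h3, h4, h5⟩
      let D : LineData Γ H := ⟨u, v, compl_adj h1 h2, h3, h4, fun x y h => h5 x y h.ne
        ((SimpleGraph.compl_adj Γ _ _).mp h).2⟩
      exact D.quasiLine

end Pool.Agent.Results.MP_7fb950_al.QuasiLineIff
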